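import Pool.Agent.Y205.MD.Sub

/-!
# General fat points of multiplicities at most `μ` with `∑ m i ≥ 150 μ ^ 3`

Let `μ ≥ 2`. For general points of the complex projective plane with ARBITRARY multiplicities
`w i ≤ μ` whose sum is at least `150 μ ^ 3`, the fat points impose maximal conditions in EVERY
degree: no tuple `(2, k, m 1, ..., m k, d)` with `m i ≤ μ` and `∑ m i ≥ 150 μ ^ 3` is
exceptional.
-/

set_option autoImplicit false

namespace Pool.Agent.Results.MP_1dafdd_ag.AllBoundedVectors

open Pool.Agent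

theorem result (n μ : ℕ) (hμ : 2 ≤ μ) (w : Fin n → ℕ) (hw : ∀ i, w i ≤ μ)
    (h : 150 * μ ^ 3 ≤ ∑ i, w i) :
    ∃ F : MvPolynomial (Fin n × Fin 2) ℂ, F ≠ 0 ∧
      ∀ P : Fin n → Fin 2 → ℂ,
        MvPolynomial.eval (fun ij : Fin n × Fin 2 => P ij.1 ij.2) F ≠ 0 →
        ∀ d : ℕ,
          Module.finrank ℂ
            ↥(MvPolynomial.homogeneousSubmodule (Fin 3) ℂ d ⊓
              Submodule.restrictScalars ℂ
                (⨅ i : Fin n,
                  (Ideal.span
                    ({MvPolynomial.X 0 - MvPolynomial.C (P i 0) * MvPolynomial.X 2,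
                      MvPolynomial.X 1 - MvPolynomial.C (P i 1) * MvPolynomial.X 2} :
                      Set (MvPolynomial (Fin 3) ℂ))) ^ (w i)))
          = Nat.choose (d + 2) 2 - ∑ i, Nat.choose (w i + 1) 2 := by
  obtain ⟨F, hF, hF'⟩ := Y205.MD.all_vectors hμ hw
  refine ⟨F.map (algebraMap ℚ ℂ), H932R3.map_ne_zero_of hF, fun P hP d => ?_⟩
  rw [MvPolynomial.eval_map] at hP
  exact hF' P hP d (Or.inl h)

end Pool.Agent.Results.MP_1dafdd_ag.AllBoundedVectors
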