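import Pool.Agent.Y205.AV.Three

/-!
# General fat points of the plane which fail to impose maximal conditions

Let `m 1, ..., m k ≥ 1` be ANY multiplicities at general points of the complex projective plane,
`μ` an upper bound for them and `s` an upper bound for the number of their different values. If
the fat points fail to impose maximal conditions in degree `d`, then

* `∑ m i + 4 |(d + 2).choose 2 - ∑ (m i + 1).choose 2| < 25000 (μ + 1) ^ 2`;
* `|(d + 2).choose 2 - ∑ (m i + 1).choose 2| < ∑ m i + 26 (μ + 1) ^ 2`;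
* `∑ m i ^ 2 < 40000 s μ ^ 2`;
* `(d + 1) (d + 2) < 12500 (μ + 1) ^ 2 (2 μ + 3)`.

So for every `μ` there are no failures with `∑ m i ≥ 25000 (μ + 1) ^ 2`, no failures in degrees
`d ≥ 178 (μ + 1) ^ (3 / 2)`, and for every single vector the number of conditions differs from the
number of coefficients by less than `6250 (μ + 1) ^ 2` in case of a failure.
-/

set_option autoImplicit false

namespace Pool.Agent.Results.MP_1dafdd_ag.FailuresInThePlane

open Pool.Agent

theorem result (k : ℕ) (hk : 1 ≤ k) (m : Fin k → ℕ) (hm : ∀ i, 1 ≤ m i) :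
    ∃ F : MvPolynomial (Fin k × Fin 2) ℂ, F ≠ 0 ∧
      ∀ P : Fin k → Fin 2 → ℂ,
        MvPolynomial.eval (fun ij : Fin k × Fin 2 => P ij.1 ij.2) F ≠ 0 →
        ∀ d μ s : ℕ, (∀ i, m i ≤ μ) → (Finset.univ.image m).card ≤ s →
          Module.finrank ℂ
            ↥(MvPolynomial.homogeneousSubmodule (Fin 3) ℂ d ⊓
              Submodule.restrictScalars ℂ
                (⨅ i : Fin k,
                  (Ideal.span
                    ({MvPolynomial.X 0 - MvPolynomial.C (P i 0) * MvPolynomial.X 2,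
                      MvPolynomial.X 1 - MvPolynomial.C (P i 1) * MvPolynomial.X 2} :
                      Set (MvPolynomial (Fin 3) ℂ))) ^ (m i)))
          ≠ Nat.choose (d + 2) 2 - ∑ i, Nat.choose (m i + 1) 2 →
          (∑ i, (m i : ℤ) + 4 * |((d + 2).choose 2 : ℤ) - ∑ i, ((m i + 1).choose 2 : ℤ)| <
              25000 * ((μ : ℤ) + 1) ^ 2) ∧
            (|((d + 2).choose 2 : ℤ) - ∑ i, ((m i + 1).choose 2 : ℤ)| <
              ∑ i, (m i : ℤ) + 26 * ((μ : ℤ) + 1) ^ 2) ∧
            ∑ i, m i ^ 2 < 40000 * s * μ ^ 2 ∧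
            (d + 1) * (d + 2) < 12500 * (μ + 1) ^ 2 * (2 * μ + 3) := by
  obtain ⟨F, hF, hF'⟩ := Y205.AV.three_ranges hk m hm
  refine ⟨F.map (algebraMap ℚ ℂ), H932R3.map_ne_zero_of hF, fun P hP d μ s hμ hs hne => ?_⟩
  rw [MvPolynomial.eval_map] at hP
  have hno : ¬ Y205.AV.Range3 m d := fun h => hne (hF' P hP d h)
  have h1 : ∑ i, m i + 2 * Y205.AV.gap m d < 25000 * (μ + 1) ^ 2 := by
    by_contra hcon
    push Not at hcon
    exact hno ⟨μ, s, hμ, hs, Or.inl (Or.inl hcon)⟩
  have h0 : Y205.AV.gap m d < 2 * ∑ i, m i + 52 * (μ + 1) ^ 2 := by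
    by_contra hcon
    push Not at hcon
    exact hno ⟨μ, s, hμ, hs, Or.inl (Or.inr hcon)⟩
  refine ⟨?_, ?_, ?_, Y205.AV.deg_lt hμ h1⟩
  · have h2 := Y205.AV.gap_eq m d
    have h3 : ((∑ i, m i + 2 * Y205.AV.gap m d : ℕ) : ℤ) < ((25000 * (μ + 1) ^ 2 : ℕ) : ℤ) := by
      exact_mod_cast h1
    push_cast at h3
    rw [h2] at h3
    linarith
  · have h2 := Y205.AV.gap_eq m d
    have h3 : ((Y205.AV.gap m d : ℕ) : ℤ) < ((2 * ∑ i, m i + 52 * (μ + 1) ^ 2 : ℕ) : ℤ) := by
      exact_mod_cast h0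
    push_cast at h3
    rw [h2] at h3
    linarith
  · by_contra hcon
    push Not at hcon
    exact hno ⟨μ, s, hμ, hs, Or.inr (Or.inl hcon)⟩

end Pool.Agent.Results.MP_1dafdd_ag.FailuresInThePlane
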